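import Pool.Agent.Q291.MK.Stm7
import Pool.Agent.Q291.MK.Base

/-!
# Job PKG of project MK
-/

namespace Pool.Agent.Q241.MK

open Filter Topology
open Pool.Agent.Q291.MK

lemma it_AM {a : ℕ → ℝ} (ha : AM a) (n : ℕ) : AM (R^[n] a) := by
  induction n with
  | zero => simpa using ha
  | succ n ih =>
    rw [Function.iterate_succ_apply']
    exact (bRB _ ih).1

lemma law_le_one {a : ℕ → ℝ} (ha : Law a) (i : ℕ) : a i ≤ 1 := by
  have h := ha.one.summable.le_tsum i (fun j _ => ha.nn j)
  rwa [ha.one.tsum_eq] at h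

lemma E_nonneg {a : ℕ → ℝ} (ha : Law a) {t : ℝ} (ht : 0 ≤ t) : 0 ≤ E a (fun k => t ^ k) :=
  tsum_nonneg fun k => mul_nonneg (ha.nn k) (pow_nonneg ht k)

lemma summ_pow {a : ℕ → ℝ} (ha : Law a) {t : ℝ} (ht : 0 ≤ t) (ht1 : t ≤ 1) :
    Summable fun k => a k * t ^ k := by
  refine Summable.of_nonneg_of_le (fun k => mul_nonneg (ha.nn k) (pow_nonneg ht k))
    (fun k => ?_) ha.one.summable
  have h1 : t ^ k ≤ 1 := pow_le_one₀ ht ht1
  have h2 := ha.nn k
  nlinarith

lemma E_mono_pow {a : ℕ → ℝ} (ha : Law a) {s t : ℝ} (hs : 0 ≤ s) (hst : s ≤ t) (ht1 : t ≤ 1) :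
    E a (fun k => s ^ k) ≤ E a (fun k => t ^ k) := by
  refine Summable.tsum_le_tsum (fun k => ?_) (summ_pow ha hs (hst.trans ht1))
    (summ_pow ha (hs.trans hst) ht1)
  exact mul_le_mul_of_nonneg_left (pow_le_pow_left₀ hs hst k) (ha.nn k)

lemma E_le_one {a : ℕ → ℝ} (ha : Law a) {t : ℝ} (ht : 0 ≤ t) (ht1 : t ≤ 1) :
    E a (fun k => t ^ k) ≤ 1 := by
  refine (E_mono_pow ha ht ht1 le_rfl).trans (le_of_eq ?_)
  unfold E
  simp only [one_pow, mul_one]
  exact ha.one.tsum_eq

/-- the generating function is uniformly close to a power -/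
lemma part1 {a : ℕ → ℝ} (ha : Law a) {μ : ℝ} (hμ : 10 ≤ μ)
    (h : ∀ t : ℝ, 0 < t → t ≤ 1 → |E a (fun k => t ^ k) - t ^ μ| ≤ √μ * |Real.log t|)
    {t : ℝ} (ht : 0 ≤ t) (ht1 : t ≤ 1) :
    |E a (fun k => t ^ k) - t ^ μ| ≤ 2 * (Real.log μ / √μ) := by
  have hμ0 : 0 < μ := by linarith
  have hs0 : 0 < √μ := Real.sqrt_pos.2 hμ0
  have hss : √μ * √μ = μ := Real.mul_self_sqrt hμ0.le
  have hlog : 1 ≤ Real.log μ := by
    rw [Real.le_log_iff_exp_le hμ0]
    have := Real.exp_one_lt_d9
    linarith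
  set t0 : ℝ := Real.exp (-(Real.log μ / μ)) with ht0
  have ht00 : 0 < t0 := Real.exp_pos _
  have ht01 : t0 ≤ 1 := by
    rw [ht0, Real.exp_le_one_iff]
    have : 0 ≤ Real.log μ / μ := by positivity
    linarith
  have hlt0 : Real.log t0 = -(Real.log μ / μ) := Real.log_exp _
  have e1 : √μ * (Real.log μ / μ) = Real.log μ / √μ := by
    rw [← mul_div_assoc, div_eq_div_iff hμ0.ne' hs0.ne']
    linear_combination (Real.log μ) * hss
  have hpos : 0 ≤ Real.log μ / √μ := by positivity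
  rcases le_or_gt t0 t with h1 | h1
  · have ht' : 0 < t := lt_of_lt_of_le ht00 h1
    refine (h t ht' ht1).trans ?_
    have h2 : |Real.log t| ≤ Real.log μ / μ := by
      rw [abs_of_nonpos (Real.log_nonpos ht ht1)]
      have := Real.log_le_log ht00 h1
      rw [hlt0] at this
      linarith
    calc √μ * |Real.log t| ≤ √μ * (Real.log μ / μ) := mul_le_mul_of_nonneg_left h2 hs0.le
      _ = Real.log μ / √μ := e1
      _ ≤ _ := by linarith
  · have h2 := h t0 ht00 ht01
    rw [hlt0, abs_neg, abs_of_nonneg (by positivity : (0 : ℝ) ≤ Real.log μ / μ), e1] at h2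
    have h3 : t0 ^ μ = 1 / μ := by
      rw [ht0, ← Real.exp_mul]
      have : -(Real.log μ / μ) * μ = -Real.log μ := by field_simp
      rw [this, Real.exp_neg, Real.exp_log hμ0, one_div]
    have h4 : 1 / μ ≤ Real.log μ / √μ := by
      rw [div_le_div_iff₀ hμ0 hs0]
      have : √μ ≤ μ := by
        rw [Real.sqrt_le_left hμ0.le]
        nlinarith
      nlinarith
    have h5 := E_mono_pow ha ht h1.le ht01
    have h6 := E_nonneg ha ht
    have h7 : t ^ μ ≤ t0 ^ μ := Real.rpow_le_rpow ht h1.le hμ0.le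
    have h8 : 0 ≤ t ^ μ := Real.rpow_nonneg ht _
    have h9 := (abs_le.1 h2).2
    rw [abs_le]
    constructor <;> linarith

/-- linear growth -/
lemma growth {C0 : ℝ} (hC0 : 0 < C0) : ∃ c1 : ℝ, 0 < c1 ∧ c1 ≤ 1 ∧ ∀ (y μ : ℝ), 1 ≤ y → 10 ≤ μ →
    |μ - 2 * (y - 1)| ≤ C0 * (1 + Real.log y) → c1 * y ≤ μ ∧ μ ≤ (2 + C0) * y := by
  set K : ℝ := |2 + C0 * Real.log (4 * C0)| + 1 with hK
  have hK1 : 1 ≤ K := by
    rw [hK]
    have := abs_nonneg (2 + C0 * Real.log (4 * C0))
    linarith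
  refine ⟨1 / K, by positivity, ?_, fun y μ hy hμ h => ?_⟩
  · rw [div_le_one (by linarith)]
    exact hK1
  · have hy0 : 0 < y := by linarith
    have h1 := abs_le.1 h
    have hlog : Real.log y ≤ y / (4 * C0) - 1 + Real.log (4 * C0) := by
      have h2 := Real.log_le_sub_one_of_pos (show 0 < y / (4 * C0) by positivity)
      rw [Real.log_div hy0.ne' (by positivity)] at h2
      linarith
    have hlog2 : C0 * (1 + Real.log y) ≤ y / 4 + C0 * Real.log (4 * C0) := by
      have h3 := mul_le_mul_of_nonneg_left hlog hC0.le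
      have h4 : C0 * (y / (4 * C0)) = y / 4 := by field_simp
      nlinarith
    constructor
    · rw [one_div, inv_mul_le_iff₀ (by linarith)]
      have h5 : 2 + C0 * Real.log (4 * C0) ≤ K := by
        rw [hK]
        have := le_abs_self (2 + C0 * Real.log (4 * C0))
        linarith
      have h6 : 7 / 4 * y - K ≤ μ := by linarith [h1.1]
      rcases le_or_gt (2 * K) y with h7 | h7
      · nlinarith
      · nlinarith
    · have h8 : Real.log y ≤ y - 1 := Real.log_le_sub_one_of_pos hy0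
      have h9 : C0 * (1 + Real.log y) ≤ C0 * y := by
        apply mul_le_mul_of_nonneg_left _ hC0.le
        linarith
      linarith [h1.2]

theorem t_PKG : P_PROP → P_WA → P_PKG := by
  intro hPROP hWA m ν x b hm hν hx hmean hlim
  obtain ⟨C0, hC0, -, hLaw, -, hmn, hR, hb0, hW, hgr, hgf, hone, hlt, ⟨c, hc, hdec⟩, -⟩ :=
    hPROP m ν x b (by linarith) hν hx hmean hlim
  have hAM : ∀ l n, AM (R^[n] (pois (x l))) := fun l n => it_AM (bPOIS _ (hx l).le).1 n
  -- monotonicity
  have hanti : ∀ k : ℤ, mean (b (k + 1)) ≤ mean (b k) := by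
    intro k
    refine le_of_tendsto_of_tendsto (hmn (k + 1)) (hmn k) ?_
    filter_upwards [hν.eventually_ge_atTop (k.natAbs + 1)] with l hl
    have e : ((ν l : ℤ) + (k + 1)).toNat = ((ν l : ℤ) + k).toNat + 1 := by omega
    rw [e, Function.iterate_succ_apply']
    have h1 := hAM l ((ν l : ℤ) + k).toNat
    have h2 := (bRB _ h1).2.1
    have h3 := law_le_one h1.toLaw 0
    linarith
  have h10 : ∀ j : ℕ, 10 ≤ mean (b (-(j : ℤ))) := by
    intro j
    induction j with
    | zero =>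
      simp only [Nat.cast_zero, neg_zero]
      rw [hb0]
      exact hm
    | succ j ih =>
      have h1 := hanti (-((j + 1 : ℕ) : ℤ))
      have e : -((j + 1 : ℕ) : ℤ) + 1 = -(j : ℤ) := by push_cast; ring
      rw [e] at h1
      linarith
  obtain ⟨c1, hc1, hc11, hgrow⟩ := growth hC0
  have hG : ∀ j : ℕ, c1 * ((j : ℝ) + 1) ≤ mean (b (-(j : ℤ))) ∧
      mean (b (-(j : ℤ))) ≤ (2 + C0) * ((j : ℝ) + 1) := by
    intro j
    have hj : (0 : ℝ) ≤ j := Nat.cast_nonneg j
    refine hgrow ((j : ℝ) + 1) _ (by linarith) (h10 j) ?_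
    have := hgr j
    rwa [show (j : ℝ) + 1 - 1 = j by ring]
  have hsc : 0 < √c1 := Real.sqrt_pos.2 hc1
  have hC1log : 0 ≤ Real.log (2 + C0) := Real.log_nonneg (by linarith)
  -- the constants of the Wilson loop
  obtain ⟨C3, C8, M, D, Q, -, -, -, -, -, hORB⟩ := bORB
  obtain ⟨D2, M2, hD2, hM2, hWA'⟩ := hWA C3 C8
  set M3 : ℝ := max M M2 with hM3
  have hM30 : 10 ≤ M3 := hM2.trans (le_max_right _ _)
  set A1 : ℝ := 2 * (1 + Real.log (2 + C0)) / √c1 with hA1
  set A2 : ℝ := √(C0 + 1) with hA2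
  set A3 : ℝ := D2 / (c1 * √c1) with hA3
  set A4 : ℝ := (M3 / c1) * √(M3 / c1) with hA4
  have hA1' : 0 < A1 := by positivity
  have hA2' : 0 < A2 := Real.sqrt_pos.2 (by linarith)
  have hA3' : 0 < A3 := by positivity
  have hA4' : 0 < A4 := by positivity
  refine ⟨A1 + A2 + A3 + A4 + C0 + Real.exp c, c, by positivity, hc, ?_, ?_, ?_⟩
  · intro j t ht ht1
    have hj : (0 : ℝ) ≤ j := Nat.cast_nonneg j
    have hj1 : (0 : ℝ) < (j : ℝ) + 1 := by linarith
    have hsj : 0 < √((j : ℝ) + 1) := Real.sqrt_pos.2 hj1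
    have hlj : 0 ≤ Real.log ((j : ℝ) + 1) := Real.log_nonneg (by linarith)
    have hL : 0 < (1 + Real.log ((j : ℝ) + 1)) / √((j : ℝ) + 1) := by positivity
    have key : |E (b (-(j : ℤ))) (fun k => t ^ k) - t ^ (mean (b (-(j : ℤ))))| ≤
        (A1 + A2) * ((1 + Real.log ((j : ℝ) + 1)) / √((j : ℝ) + 1)) := by
      rcases le_or_gt C0 (j : ℝ) with h1 | h1
      · have h2 := part1 (hLaw (-(j : ℤ))) (h10 j) (hgf j h1) ht ht1
        refine h2.trans ?_
        obtain ⟨g1, g2⟩ := hG j
        have hμ0 : 0 < mean (b (-(j : ℤ))) := by linarith [h10 j]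
        have h3 : Real.log (mean (b (-(j : ℤ)))) ≤
            (1 + Real.log (2 + C0)) * (1 + Real.log ((j : ℝ) + 1)) := by
          have h4 := Real.log_le_log hμ0 g2
          rw [Real.log_mul (by linarith) hj1.ne'] at h4
          nlinarith [mul_nonneg hC1log hlj]
        have h5 : √c1 * √((j : ℝ) + 1) ≤ √(mean (b (-(j : ℤ)))) := by
          rw [← Real.sqrt_mul hc1.le]
          exact Real.sqrt_le_sqrt g1
        have h6 : Real.log (mean (b (-(j : ℤ)))) / √(mean (b (-(j : ℤ)))) ≤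
            ((1 + Real.log (2 + C0)) * (1 + Real.log ((j : ℝ) + 1))) /
              (√c1 * √((j : ℝ) + 1)) := by
          apply div_le_div₀ (by positivity) h3 (by positivity) h5
        have h7 : 2 * (((1 + Real.log (2 + C0)) * (1 + Real.log ((j : ℝ) + 1))) /
              (√c1 * √((j : ℝ) + 1))) =
            A1 * ((1 + Real.log ((j : ℝ) + 1)) / √((j : ℝ) + 1)) := by
          rw [hA1]
          field_simp
        have h8 : 0 ≤ A2 * ((1 + Real.log ((j : ℝ) + 1)) / √((j : ℝ) + 1)) := by positivity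
        calc 2 * (Real.log (mean (b (-(j : ℤ)))) / √(mean (b (-(j : ℤ))))) ≤
            2 * (((1 + Real.log (2 + C0)) * (1 + Real.log ((j : ℝ) + 1))) /
              (√c1 * √((j : ℝ) + 1))) := by linarith
          _ = A1 * ((1 + Real.log ((j : ℝ) + 1)) / √((j : ℝ) + 1)) := h7
          _ ≤ _ := by rw [add_mul]; linarith
      · have h2 : |E (b (-(j : ℤ))) (fun k => t ^ k) - t ^ (mean (b (-(j : ℤ))))| ≤ 1 := by
          have g1 := E_nonneg (hLaw (-(j : ℤ))) ht
          have g2 := E_le_one (hLaw (-(j : ℤ))) ht ht1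
          have g3 : 0 ≤ t ^ (mean (b (-(j : ℤ)))) := Real.rpow_nonneg ht _
          have g4 : t ^ (mean (b (-(j : ℤ)))) ≤ 1 :=
            Real.rpow_le_one ht ht1 (by linarith [h10 j])
          rw [abs_le]
          constructor <;> linarith
        refine h2.trans ?_
        have h3 : √((j : ℝ) + 1) ≤ A2 := Real.sqrt_le_sqrt (by linarith)
        have h4 : 1 ≤ A2 * ((1 + Real.log ((j : ℝ) + 1)) / √((j : ℝ) + 1)) := by
          rw [← mul_div_assoc, le_div_iff₀ hsj]
          nlinarith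
        have h5 : 0 ≤ A1 * ((1 + Real.log ((j : ℝ) + 1)) / √((j : ℝ) + 1)) := by positivity
        rw [add_mul]
        linarith
    refine key.trans ?_
    rw [mul_div_assoc]
    refine mul_le_mul_of_nonneg_right ?_ hL.le
    have := Real.exp_pos c
    linarith
  · intro j
    have hj : (0 : ℝ) ≤ j := Nat.cast_nonneg j
    have hj1 : (0 : ℝ) < (j : ℝ) + 1 := by linarith
    have hsj : 0 < √((j : ℝ) + 1) := Real.sqrt_pos.2 hj1
    obtain ⟨g1, g2⟩ := hG j
    set μ : ℝ := mean (b (-(j : ℤ))) with hμ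
    have hμ10 : 10 ≤ μ := h10 j
    have hμ0 : 0 < μ := by linarith
    have hsμ : 0 < √μ := Real.sqrt_pos.2 hμ0
    have hden : 0 < ((j : ℝ) + 1) * √((j : ℝ) + 1) := by positivity
    have key : |1 - W (b (-(j : ℤ))) - 3 / μ| ≤
        (A3 + A4) / (((j : ℝ) + 1) * √((j : ℝ) + 1)) := by
      rcases lt_or_ge M3 μ with h1 | h1
      · have hWt : Tendsto (fun l => W (R^[((ν l : ℤ) + (-(j : ℤ))).toNat] (pois (x l)))) atTop
            (𝓝 (W (b (-(j : ℤ))))) :=
          (bCONT (fun l => R^[((ν l : ℤ) + (-(j : ℤ))).toNat] (pois (x l))) (b (-(j : ℤ)))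
            (fun l => (hAM l _).toLaw) (hLaw _) (fun i => hlim _ i)).2.2.2.2.2.2
        have hMt := hmn (-(j : ℤ))
        have hev := hMt.eventually (lt_mem_nhds h1)
        have h2 : ∀ᶠ l in atTop,
            |1 - W (R^[((ν l : ℤ) + (-(j : ℤ))).toNat] (pois (x l))) -
              3 / mean (R^[((ν l : ℤ) + (-(j : ℤ))).toNat] (pois (x l)))| ≤
            D2 / (mean (R^[((ν l : ℤ) + (-(j : ℤ))).toNat] (pois (x l))) *
              √(mean (R^[((ν l : ℤ) + (-(j : ℤ))).toNat] (pois (x l))))) := by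
          filter_upwards [hev] with l hl
          have h3 := (hORB (x l) (hx l) ((ν l : ℤ) + (-(j : ℤ))).toNat).1
            ((le_max_left _ _).trans hl.le)
          exact hWA' _ h3.1 ((le_max_right _ _).trans hl.le)
        have h3 : |1 - W (b (-(j : ℤ))) - 3 / μ| ≤ D2 / (μ * √μ) := by
          refine le_of_tendsto_of_tendsto ?_ ?_ h2
          · exact (((tendsto_const_nhds.sub hWt).sub
              (tendsto_const_nhds.div hMt hμ0.ne')).abs)
          · refine tendsto_const_nhds.div (hMt.mul ?_) (by positivity)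
            exact (Real.continuous_sqrt.tendsto _).comp hMt
        refine h3.trans ?_
        have h4 : (c1 * √c1) * (((j : ℝ) + 1) * √((j : ℝ) + 1)) ≤ μ * √μ := by
          have h5 : √c1 * √((j : ℝ) + 1) ≤ √μ := by
            rw [← Real.sqrt_mul hc1.le]
            exact Real.sqrt_le_sqrt g1
          calc (c1 * √c1) * (((j : ℝ) + 1) * √((j : ℝ) + 1)) =
              (c1 * ((j : ℝ) + 1)) * (√c1 * √((j : ℝ) + 1)) := by ring
            _ ≤ μ * √μ := mul_le_mul g1 h5 (by positivity) hμ0.le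
        have h5 : D2 / (μ * √μ) ≤ A3 / (((j : ℝ) + 1) * √((j : ℝ) + 1)) := by
          rw [hA3, div_div]
          exact div_le_div_of_nonneg_left hD2.le (by positivity) h4
        refine h5.trans ?_
        exact div_le_div_of_nonneg_right (by linarith) hden.le
      · have h2 : |1 - W (b (-(j : ℤ))) - 3 / μ| ≤ 1 := by
          have h3 := hW (-(j : ℤ))
          have h4 : 3 / μ ≤ 3 / 10 := by
            apply div_le_div_of_nonneg_left (by norm_num) (by norm_num) hμ10
          have h5 : 0 < 3 / μ := by positivity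
          rw [abs_le]
          constructor <;> linarith [h3.1, h3.2]
        refine h2.trans ?_
        rw [le_div_iff₀ hden, one_mul]
        have h3 : (j : ℝ) + 1 ≤ M3 / c1 := by
          rw [le_div_iff₀ hc1]
          linarith
        have h4 : √((j : ℝ) + 1) ≤ √(M3 / c1) := Real.sqrt_le_sqrt h3
        have h5 : ((j : ℝ) + 1) * √((j : ℝ) + 1) ≤ A4 :=
          mul_le_mul h3 h4 hsj.le (by positivity)
        linarith
    refine key.trans (div_le_div_of_nonneg_right ?_ hden.le)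
    have := Real.exp_pos c
    linarith
  · intro k
    have hexp := Real.exp_pos c
    rcases le_or_gt 0 k with hk | hk
    · obtain ⟨n, rfl⟩ := Int.eq_ofNat_of_zero_le hk
      have h1 := (hone (n : ℤ)).trans (hdec n)
      have e : (4 : ℝ) ^ ((n : ℕ) : ℤ) = 4 ^ n := zpow_natCast _ _
      rw [e]
      refine h1.trans ?_
      refine mul_le_mul_of_nonneg_right ?_ (Real.exp_pos _).le
      linarith
    · have h1 : 1 - b k 0 ≤ 1 := by
        have := (hLaw k).nn 0
        linarith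
      have h2 : (4 : ℝ) ^ k ≤ 1 := zpow_le_one_of_nonpos₀ (by norm_num) hk.le
      have h3 : 1 ≤ Real.exp c * Real.exp (-c * (4 : ℝ) ^ k) := by
        rw [← Real.exp_add]
        apply Real.one_le_exp
        nlinarith
      refine h1.trans (h3.trans ?_)
      refine mul_le_mul_of_nonneg_right ?_ (Real.exp_pos _).le
      linarith

end Pool.Agent.Q241.MK
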